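import Pool.Agent.TH789.BC.Near

set_option autoImplicit false

/-!
Coverings of a Hilbert space by balls: the inductive step (a further ball can be added to a
finite set of simultaneously active balls) and the conclusion.
-/

namespace Pool.Agent.TH789.BC

open Set Metric Filter Topology

variable {H : Type*} [NormedAddCommGroup H] [InnerProductSpace ℝ H]

variable {B : Set (H × ℝ)}

theorem centre_C [CompleteSpace H] (hB : Cov B) (z : H) :
    ∃ C : ℝ, 0 < C ∧ ∀ b ∈ B, ‖z‖ ^ 2 - lf b z ≤ 1 → ‖b.1 - z‖ ≤ C := by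
  obtain ⟨δ, M, hδ, hM⟩ := loc_bdd hB z
  refine ⟨(|M| + 1) / (2 * δ) + ‖z‖, by positivity, fun b hb h => ?_⟩
  have h1 := centre_bd hδ (hM b hb)
  have h2 : ‖b.1‖ ≤ (|M| + 1) / (2 * δ) := by
    rw [le_div_iff₀ (by positivity)]
    nlinarith [le_abs_self M, sq_nonneg ‖z‖]
  exact (norm_sub_le _ _).trans (by linarith)

theorem ev_small {f : ℝ → ℝ} (hf : Continuous f) (h0 : f 0 = 0) {c : ℝ} (hc : 0 < c) :
    ∀ᶠ β : ℝ in 𝓝[>] 0, f β < c := by
  have h := hf.tendsto 0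
  rw [h0] at h
  have h1 : ∀ᶠ β : ℝ in 𝓝 0, f β < c := h.eventually (gt_mem_nhds hc)
  exact h1.filter_mono nhdsWithin_le_nhds

theorem extend [CompleteSpace H] (hinf : ¬ FiniteDimensional ℝ H) (hB : Cov B) {z0 : H}
    {ε0 ρ : ℝ} (hρ : 0 < ρ) (hd : ∀ z ∈ Zs B, ‖z - z0‖ < ε0 → ∀ ε : ℝ, 0 < ε →
      ∃ z' ∈ Zs B, ‖z' - z‖ < ε ∧ ∃ b ∈ B, ρ ≤ b.2 ∧ ‖z' - b.1‖ ≤ b.2)
    {s : Set (H × ℝ)} (hs : s.Finite) {b0 : H × ℝ} (hb0 : b0 ∈ s) {z x0 : H} (hz : z ∈ Zs B)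
    (hz0 : ‖z - z0‖ < ε0) (hzs : ∀ b ∈ s, Act B z b) (hxs : ∀ b ∈ s, Act B x0 b)
    (hx0 : ‖x0‖ ^ 2 < lf b0 x0) :
    ∃ b' ∉ s, ∃ z' ∈ Zs B, ‖z' - z0‖ < ε0 ∧ ∃ x' : H, (∀ b ∈ insert b' s, Act B z' b) ∧
      (∀ b ∈ insert b' s, Act B x' b) ∧ ‖x'‖ ^ 2 < lf b0 x' := by
  have hb0B : b0 ∈ B := (hzs b0 hb0).1
  have hlf0 : lf b0 z = ‖z‖ ^ 2 := le_antisymm (hz b0 hb0B) (act_ge hB (hzs b0 hb0))
  set c := b0.1 - z with hc
  have hgap : ∀ u : H, lf b0 (z + u) = ‖z + u‖ ^ 2 + (2 * inner ℝ c u - ‖u‖ ^ 2) := by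
    intro u
    rw [lf_add, hlf0, norm_add_sq_real, hc, inner_sub_left]
    ring
  set g := x0 - z with hg
  have hxg : x0 = z + g := by rw [hg]; abel
  set κ := inner ℝ c g with hκ
  have hX : ‖g‖ ^ 2 < 2 * κ := by
    have h1 := hgap g
    rw [← hxg] at h1
    linarith
  have hκ0 : 0 < κ := by linarith [sq_nonneg ‖g‖]
  set ε1 := ε0 - ‖z - z0‖ with hε1
  have hε10 : 0 < ε1 := by linarith
  obtain ⟨C, hC0, hC⟩ := centre_C hB z
  -- the parameters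
  obtain ⟨t, ht0, ht1, ht2⟩ : ∃ t : ℝ, 0 < t ∧ t < 1 ∧ 2 * (t * κ) < ε1 ^ 2 := by
    have e0 : ∀ᶠ τ : ℝ in 𝓝[>] 0, 0 < τ := self_mem_nhdsWithin
    have e1 : ∀ᶠ τ : ℝ in 𝓝[>] 0, τ < 1 := ev_small continuous_id rfl one_pos
    have e2 : ∀ᶠ τ : ℝ in 𝓝[>] 0, 2 * (τ * κ) < ε1 ^ 2 :=
      ev_small (f := fun τ : ℝ => 2 * (τ * κ)) (by fun_prop) (by simp) (by positivity)
    exact (e0.and (e1.and e2)).exists
  obtain ⟨β, hβ0, hβ1, hβ2, hβ3⟩ : ∃ β : ℝ, 0 < β ∧ β ^ 2 * C ^ 2 * ‖g‖ ^ 2 < κ ^ 2 ∧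
      8 * C ^ 2 * β < ρ ^ 2 ∧ 2 * (β ^ 2 * C ^ 2) < ε1 ^ 2 := by
    have e0 : ∀ᶠ τ : ℝ in 𝓝[>] 0, 0 < τ := self_mem_nhdsWithin
    have e1 : ∀ᶠ τ : ℝ in 𝓝[>] 0, τ ^ 2 * C ^ 2 * ‖g‖ ^ 2 < κ ^ 2 :=
      ev_small (f := fun τ : ℝ => τ ^ 2 * C ^ 2 * ‖g‖ ^ 2) (by fun_prop) (by simp) (by positivity)
    have e2 : ∀ᶠ τ : ℝ in 𝓝[>] 0, 8 * C ^ 2 * τ < ρ ^ 2 :=
      ev_small (f := fun τ : ℝ => 8 * C ^ 2 * τ) (by fun_prop) (by simp) (by positivity)
    have e3 : ∀ᶠ τ : ℝ in 𝓝[>] 0, 2 * (τ ^ 2 * C ^ 2) < ε1 ^ 2 :=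
      ev_small (f := fun τ : ℝ => 2 * (τ ^ 2 * C ^ 2)) (by fun_prop) (by simp) (by positivity)
    exact (e0.and (e1.and (e2.and e3))).exists
  set α := β ^ 2 * C ^ 2 / κ with hα
  have hα0 : 0 < α := by positivity
  have hακ : α * κ = β ^ 2 * C ^ 2 := by
    rw [hα]
    field_simp
  -- the subspace and the new ball
  set V : Submodule ℝ H := Submodule.span ℝ (insert g ((fun b : H × ℝ => b.1 - z) '' s)) with hV
  have hVf : FiniteDimensional ℝ V := FiniteDimensional.span_of_finite ℝ ((hs.image _).insert g)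
  have hgV : g ∈ V := Submodule.subset_span (mem_insert _ _)
  have hsV : ∀ b ∈ s, b.1 - z ∈ V := fun b hb =>
    Submodule.subset_span (mem_insert_of_mem _ ⟨b, hb, rfl⟩)
  obtain ⟨η, hη, hE⟩ := fin_proj hB z V (ε := min (ρ / 2) (κ / (‖g‖ + 1))) (by positivity)
  have hI := inf_big hinf hB hd hz hz0 (η := min (min η 1) (β * ρ ^ 2 / 8)) (by positivity)
  obtain ⟨b, ⟨hb, hbρ, hbη⟩, hbn⟩ := (hI.sdiff (hs.union hE)).nonempty
  have hbs : b ∉ s := fun h => hbn (Or.inl h)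
  have hb1 : ‖z‖ ^ 2 - lf b z ≤ η := hbη.trans ((min_le_left _ _).trans (min_le_left _ _))
  have hb2 : ‖z‖ ^ 2 - lf b z ≤ 1 := hbη.trans ((min_le_left _ _).trans (min_le_right _ _))
  have hb3 : ‖z‖ ^ 2 - lf b z ≤ β * ρ ^ 2 / 8 := hbη.trans (min_le_right _ _)
  have hbP : ‖V.starProjection (b.1 - z)‖ ≤ min (ρ / 2) (κ / (‖g‖ + 1)) := by
    by_contra h
    push Not at h
    exact hbn (Or.inr ⟨hb, hb1, h⟩)
  set u := b.1 - z with hu
  set p := V.starProjection u with hp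
  have hpV : p ∈ V := V.starProjection_apply_mem u
  set n := u - p with hn
  have hnV : ∀ v ∈ V, inner ℝ n v = 0 := fun v hv => V.starProjection_inner_eq_zero u v hv
  have hup : u = p + n := by rw [hn]; abel
  have hun : inner ℝ u n = ‖n‖ ^ 2 := by
    rw [hup, inner_add_left, real_inner_comm, hnV p hpV, real_inner_self_eq_norm_sq, zero_add]
  have hu2 : ‖u‖ ^ 2 = ‖p‖ ^ 2 + ‖n‖ ^ 2 := by
    rw [hup, norm_add_sq_real, real_inner_comm, hnV p hpV]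
    ring
  have hu3 : ‖u‖ ^ 2 = b.2 ^ 2 + (‖z‖ ^ 2 - lf b z) := by
    have h1 := lf_sub b z
    rw [norm_sub_rev, ← hu] at h1
    linarith
  have hs0 : 0 ≤ ‖z‖ ^ 2 - lf b z := by
    have := hz b hb
    linarith
  have hp1 : ‖p‖ ≤ ρ / 2 := hbP.trans (min_le_left _ _)
  have hp2 : ‖p‖ * ‖g‖ ≤ κ := by
    have h1 : ‖p‖ ≤ κ / (‖g‖ + 1) := hbP.trans (min_le_right _ _)
    rw [le_div_iff₀ (by positivity)] at h1
    have h2 : ‖p‖ * (‖g‖ + 1) = ‖p‖ * ‖g‖ + ‖p‖ := by ring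
    linarith [norm_nonneg p]
  have hp3 : ‖p‖ ^ 2 ≤ ρ ^ 2 / 4 := by
    have h1 := pow_le_pow_left₀ (norm_nonneg p) hp1 2
    have h2 : (ρ / 2) ^ 2 = ρ ^ 2 / 4 := by ring
    linarith
  have hb4 : ρ ^ 2 ≤ b.2 ^ 2 := pow_le_pow_left₀ hρ.le hbρ 2
  have hn1 : 3 / 4 * ρ ^ 2 ≤ ‖n‖ ^ 2 := by linarith
  have hn2 : ‖n‖ ^ 2 ≤ C ^ 2 := by
    have h1 := pow_le_pow_left₀ (norm_nonneg _) (hC b hb hb2) 2
    linarith [sq_nonneg ‖p‖]
  have hcn : inner ℝ c n = 0 := by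
    rw [real_inner_comm]
    exact hnV _ (hsV b0 hb0)
  have hgn : inner ℝ g n = 0 := by
    rw [real_inner_comm]
    exact hnV _ hgV
  set w := α • g + β • n with hw
  set q := z + w with hq
  have hcw : inner ℝ c w = α * κ := by
    rw [hw, inner_add_right, inner_smul_right, inner_smul_right, hcn]
    ring
  have hwn : ‖w‖ ^ 2 = α ^ 2 * ‖g‖ ^ 2 + β ^ 2 * ‖n‖ ^ 2 := by
    rw [hw, norm_add_sq_real, inner_smul_left, inner_smul_right, hgn, norm_smul, norm_smul,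
      Real.norm_of_nonneg hα0.le, Real.norm_of_nonneg hβ0.le]
    simp only [mul_zero]
    ring
  have hq1 : ‖q‖ ^ 2 < lf b0 q := by
    rw [hq, hgap w, hcw, hwn]
    have h1 : α ^ 2 * ‖g‖ ^ 2 * κ ^ 2 = (β ^ 2 * C ^ 2) * (β ^ 2 * C ^ 2 * ‖g‖ ^ 2) := by
      have : α ^ 2 * κ ^ 2 = (β ^ 2 * C ^ 2) ^ 2 := by rw [← hακ]; ring
      calc α ^ 2 * ‖g‖ ^ 2 * κ ^ 2 = (α ^ 2 * κ ^ 2) * ‖g‖ ^ 2 := by ring
        _ = _ := by rw [this]; ring
    have h2 : α ^ 2 * ‖g‖ ^ 2 * κ ^ 2 < (β ^ 2 * C ^ 2) * κ ^ 2 := by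
      rw [h1]
      exact mul_lt_mul_of_pos_left hβ1 (by positivity)
    have h3 : α ^ 2 * ‖g‖ ^ 2 < β ^ 2 * C ^ 2 := lt_of_mul_lt_mul_right h2 (by positivity)
    have h4 : β ^ 2 * ‖n‖ ^ 2 ≤ β ^ 2 * C ^ 2 := by gcongr
    rw [hακ]
    linarith
  have hq2 : ∀ b' ∈ s, lf b' q = lf b0 q := by
    intro b' hb'
    have h1 : lf b' z = lf b0 z := act_eq (hzs b' hb') (hzs b0 hb0)
    have h2 : lf b' x0 = lf b0 x0 := act_eq (hxs b' hb') (hxs b0 hb0)
    rw [hxg, lf_add, lf_add, h1] at h2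
    have h3 : inner ℝ (b'.1 - z) n = 0 := by
      rw [real_inner_comm]
      exact hnV _ (hsV b' hb')
    have h4 : inner ℝ (b0.1 - z) n = 0 := hcn
    rw [inner_sub_left] at h3 h4
    rw [hq, lf_add, lf_add, h1, hw, inner_add_right, inner_add_right, inner_smul_right,
      inner_smul_right, inner_smul_right, inner_smul_right]
    have h5 : inner ℝ b'.1 g = inner ℝ b0.1 g := by linarith
    have h6 : inner ℝ b'.1 n = inner ℝ b0.1 n := by linarith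
    rw [h5, h6]
  have hq3 : lf b0 q < lf b q := by
    have h1 : lf b q - lf b0 q = (lf b z - ‖z‖ ^ 2) + 2 * (inner ℝ u w - inner ℝ c w) := by
      rw [hq, lf_add, lf_add, hlf0, hu, hc, inner_sub_left, inner_sub_left]
      ring
    have h2 : inner ℝ u w = α * inner ℝ u g + β * ‖n‖ ^ 2 := by
      rw [hw, inner_add_right, inner_smul_right, inner_smul_right, hun]
    have h3 : inner ℝ u g = inner ℝ p g := by
      rw [hup, inner_add_left, hnV g hgV, add_zero]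
    have h4 : -κ ≤ inner ℝ p g := by
      have h5 := abs_real_inner_le_norm p g
      have h6 := neg_abs_le (inner ℝ p g)
      linarith
    have h5 : α * (-κ) ≤ α * inner ℝ p g := mul_le_mul_of_nonneg_left h4 hα0.le
    have h6 : β * (3 / 4 * ρ ^ 2) ≤ β * ‖n‖ ^ 2 := mul_le_mul_of_nonneg_left hn1 hβ0.le
    have h7 : β * (8 * C ^ 2 * β) ≤ β * ρ ^ 2 := mul_le_mul_of_nonneg_left hβ2.le hβ0.le
    have h8 : 0 < β * ρ ^ 2 := by positivity
    have h9 : α * (-κ) = -(β ^ 2 * C ^ 2) := by rw [mul_neg, hακ]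
    have h10 : β * (8 * C ^ 2 * β) = 8 * (β ^ 2 * C ^ 2) := by ring
    rw [h9] at h5
    rw [h10] at h7
    rw [h2, h3, hcw, hακ] at h1
    linarith
  -- the starting point of the segment
  set a := z + t • g with ha
  have haA : ∀ b' ∈ s, Act B a b' := by
    intro b' hb'
    have h1 := act_combo (hzs b' hb') (hxs b' hb') ht0.le ht1.le
    have h2 : (1 - t) • z + t • x0 = a := by
      rw [ha, hg]
      module
    rwa [h2] at h1
  have ha1 : ‖a‖ ^ 2 < lf b0 a := by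
    rw [ha, hgap (t • g), inner_smul_right, norm_smul, Real.norm_of_nonneg ht0.le]
    have h1 : t ^ 2 * ‖g‖ ^ 2 ≤ t * ‖g‖ ^ 2 := by
      have : t ^ 2 ≤ t := pow_le_of_le_one ht0.le ht1.le two_ne_zero
      gcongr
    have h2 : t * ‖g‖ ^ 2 < t * (2 * κ) := mul_lt_mul_of_pos_left hX ht0
    have h3 : (t * ‖g‖) ^ 2 = t ^ 2 * ‖g‖ ^ 2 := by ring
    rw [h3, ← hκ]
    linarith
  -- the last point of the segment in the face
  set P : ℝ → H := fun l => (1 - l) • a + l • q with hP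
  have hPc : Continuous P := by
    rw [hP]
    fun_prop
  set S : Set ℝ := {l | l ∈ Icc (0 : ℝ) 1 ∧ ∀ b' ∈ s, Act B (P l) b'} with hS
  have hSc : IsCompact S := by
    have h1 : S = Icc (0 : ℝ) 1 ∩ ⋂ b' ∈ s, P ⁻¹' {x | Act B x b'} := by
      ext l
      simp only [hS, Set.mem_ofPred_eq, mem_inter_iff, mem_iInter, mem_preimage]
    rw [h1]
    exact isCompact_Icc.inter_right (isClosed_biInter fun b' _ => (act_closed b').preimage hPc)
  have h0S : (0 : ℝ) ∈ S := by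
    refine ⟨by simp, fun b' hb' => ?_⟩
    have : P 0 = a := by simp [hP]
    rw [this]
    exact haA b' hb'
  obtain ⟨l, hlS, hlmax⟩ := hSc.exists_isGreatest ⟨0, h0S⟩
  have hl1 : l < 1 := by
    rcases hlS.1.2.lt_or_eq with h | h
    · exact h
    · exfalso
      have h1 := (hlS.2 b0 hb0).2 b hb
      have h2 : P l = q := by simp [hP, h]
      rw [h2] at h1
      linarith
  have hl0 : 0 ≤ l := hlS.1.1
  set x := P l with hx
  have hx1 : ‖x‖ ^ 2 < lf b0 x := by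
    have h1 : lf b0 x = (1 - l) * lf b0 a + l * lf b0 q := by
      rw [hx, hP]
      exact lf_combo _ _ _ _
    have h2 : ‖x‖ ^ 2 ≤ (1 - l) * ‖a‖ ^ 2 + l * ‖q‖ ^ 2 := by
      have h3 : ‖x‖ ^ 2 = (1 - l) ^ 2 * ‖a‖ ^ 2 + 2 * ((1 - l) * l * inner ℝ a q) +
          l ^ 2 * ‖q‖ ^ 2 := by
        have h4 : x = (1 - l) • a + l • q := rfl
        rw [h4, norm_add_sq_real, inner_smul_left, inner_smul_right, norm_smul, norm_smul,
          Real.norm_of_nonneg hl0, Real.norm_of_nonneg (by linarith : (0 : ℝ) ≤ 1 - l)]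
        simp only [conj_trivial]
        ring
      have h4 : 2 * inner ℝ a q ≤ ‖a‖ ^ 2 + ‖q‖ ^ 2 := by
        have h5 := norm_sub_sq_real a q
        linarith [sq_nonneg ‖a - q‖]
      have h5 : 0 ≤ (1 - l) * l := mul_nonneg (by linarith) hl0
      have h6 : (1 - l) * l * (2 * inner ℝ a q) ≤ (1 - l) * l * (‖a‖ ^ 2 + ‖q‖ ^ 2) :=
        mul_le_mul_of_nonneg_left h4 h5
      rw [h3]
      have h7 : (1 - l) * ‖a‖ ^ 2 + l * ‖q‖ ^ 2 = (1 - l) ^ 2 * ‖a‖ ^ 2 +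
          (1 - l) * l * (‖a‖ ^ 2 + ‖q‖ ^ 2) + l ^ 2 * ‖q‖ ^ 2 := by ring
      have h8 : 2 * ((1 - l) * l * inner ℝ a q) = (1 - l) * l * (2 * inner ℝ a q) := by ring
      rw [h7, h8]
      linarith
    have h3 : (1 - l) * ‖a‖ ^ 2 < (1 - l) * lf b0 a :=
      mul_lt_mul_of_pos_left ha1 (by linarith)
    have h4 : l * ‖q‖ ^ 2 ≤ l * lf b0 q := mul_le_mul_of_nonneg_left hq1.le hl0
    linarith
  obtain ⟨ε, hε, hloc⟩ := loc_fin hB (hlS.2 b0 hb0) hx1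
  obtain ⟨b', hb', hb's⟩ : ∃ b', Act B x b' ∧ b' ∉ s := by
    by_contra hcon
    push Not at hcon
    have e1 : ∀ᶠ m in 𝓝[>] l, l < m := self_mem_nhdsWithin
    have e2 : ∀ᶠ m in 𝓝[>] l, m < 1 := by
      have : ∀ᶠ m in 𝓝 l, m < 1 := gt_mem_nhds hl1
      exact this.filter_mono nhdsWithin_le_nhds
    have e3 : ∀ᶠ m in 𝓝[>] l, P m ∈ ball x ε := by
      have : ∀ᶠ m in 𝓝 l, P m ∈ ball x ε := (hPc.tendsto l) (ball_mem_nhds _ hε)
      exact this.filter_mono nhdsWithin_le_nhds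
    obtain ⟨m, hm1, hm2, hm3⟩ := (e1.and (e2.and e3)).exists
    have hcst : ∀ b'' ∈ s, lf b'' (P m) = lf b0 (P m) := by
      intro b'' hb''
      have h1 : P m = (1 - m) • a + m • q := rfl
      rw [h1, lf_combo, lf_combo, act_eq (haA b'' hb'') (haA b0 hb0), hq2 b'' hb'']
    have hmS : m ∈ S := by
      refine ⟨⟨by linarith, hm2.le⟩, fun b1 hb1 => ⟨(hzs b1 hb1).1, fun b2 hb2 => ?_⟩⟩
      rw [mem_ball, dist_eq_norm] at hm3
      obtain ⟨b3, hb3, h1⟩ := hloc (P m) hm3.le b2 hb2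
      rw [hcst b3 (hcon b3 hb3)] at h1
      rw [hcst b1 hb1]
      exact h1
    have := hlmax hmS
    linarith
  have hxA : ∀ b'' ∈ insert b' s, Act B x b'' := by
    intro b'' hb''
    rcases mem_insert_iff.1 hb'' with rfl | h
    · exact hb'
    · exact hlS.2 b'' h
  obtain ⟨z', hz'Z, hz'A, hz'W⟩ := ext_pt hinf hB (s := insert b' s) (insert_nonempty _ _)
    (W := {c}) (finite_singleton _) (x := x) hxA
  refine ⟨b', hb's, z', hz'Z, ?_, x, hz'A, hxA, hx1⟩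
  have h1 : inner ℝ c (z' - x) = 0 := hz'W c rfl
  have h2 : lf b0 z' = ‖z'‖ ^ 2 :=
    le_antisymm (hz'Z b0 hb0B) (act_ge hB (hz'A b0 (mem_insert_of_mem _ hb0)))
  have h3 : ‖z' - z‖ ^ 2 = 2 * inner ℝ c (z' - z) := by
    have h4 := hgap (z' - z)
    rw [add_sub_cancel, h2] at h4
    linarith
  have h4 : inner ℝ c (z' - z) = (1 - l) * (t * κ) + l * (α * κ) := by
    have h5 : z' - z = (z' - x) + ((1 - l) • (t • g) + l • w) := by
      have h6 : x = (1 - l) • (z + t • g) + l • (z + w) := rfl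
      rw [h6]
      module
    rw [h5, inner_add_right, h1, inner_add_right, inner_smul_right, inner_smul_right,
      inner_smul_right, hcw, ← hκ]
    ring
  have h5 : ‖z' - z‖ ^ 2 < ε1 ^ 2 := by
    rw [h3, h4, hακ]
    have h6 : (1 - l) * (2 * (t * κ)) < (1 - l) * ε1 ^ 2 :=
      mul_lt_mul_of_pos_left ht2 (by linarith)
    have h7 : l * (2 * (β ^ 2 * C ^ 2)) ≤ l * ε1 ^ 2 := mul_le_mul_of_nonneg_left hβ3.le hl0
    have h8 : 2 * ((1 - l) * (t * κ) + l * (β ^ 2 * C ^ 2)) =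
      (1 - l) * (2 * (t * κ)) + l * (2 * (β ^ 2 * C ^ 2)) := by ring
    have h9 : (1 - l) * ε1 ^ 2 + l * ε1 ^ 2 = ε1 ^ 2 := by ring
    linarith
  have h6 : ‖z' - z‖ < ε1 := lt_of_pow_lt_pow_left₀ 2 hε10.le h5
  have h7 : z' - z0 = (z' - z) + (z - z0) := by abel
  rw [h7]
  linarith [norm_add_le (z' - z) (z - z0)]

/-- No infinite-dimensional Hilbert space has a point-finite covering by closed balls. -/
theorem no_cov [CompleteSpace H] (hinf : ¬ FiniteDimensional ℝ H) : ¬ Cov B := by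
  intro hB
  obtain ⟨z0, hz0, ε0, ρ, hε0, hρ, hd⟩ := baire_Z hinf hB
  obtain ⟨b0, x0, hb0, hx0, hx0'⟩ := start_pt hB hz0
  have hb0B : b0 ∈ B := hb0.1
  let Good : Set (H × ℝ) × H × H → Prop := fun p => p.1.Finite ∧ b0 ∈ p.1 ∧ p.2.1 ∈ Zs B ∧
    ‖p.2.1 - z0‖ < ε0 ∧ (∀ b ∈ p.1, Act B p.2.1 b) ∧ (∀ b ∈ p.1, Act B p.2.2 b) ∧
    ‖p.2.2‖ ^ 2 < lf b0 p.2.2
  have hstep : ∀ p, ∃ p' : Set (H × ℝ) × H × H, Good p → Good p' ∧
      ∃ b' ∉ p.1, p'.1 = insert b' p.1 := by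
    intro p
    by_cases hp : Good p
    · obtain ⟨g1, g2, g3, g4, g5, g6, g7⟩ := hp
      obtain ⟨b', hb', z', hz', h1, x', h2, h3, h4⟩ :=
        extend hinf hB hρ hd g1 g2 g3 g4 g5 g6 g7
      exact ⟨(insert b' p.1, z', x'), fun _ => ⟨⟨g1.insert b', mem_insert_of_mem _ g2, hz', h1,
        h2, h3, h4⟩, b', hb', rfl⟩⟩
    · exact ⟨p, fun h => absurd h hp⟩
  choose f hf using hstep
  have h0 : Good ({b0}, z0, x0) := by
    refine ⟨finite_singleton _, rfl, hz0, by simpa using hε0, ?_, ?_, hx0'⟩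
    · intro b hb
      rw [mem_singleton_iff.1 hb]
      exact hb0
    · intro b hb
      rw [mem_singleton_iff.1 hb]
      exact hx0
  have hG : ∀ n : ℕ, Good (f^[n] ({b0}, z0, x0)) := by
    intro n
    induction n with
    | zero => exact h0
    | succ n ih =>
      rw [Function.iterate_succ_apply']
      exact (hf _ ih).1
  set s : ℕ → Set (H × ℝ) := fun n => (f^[n] ({b0}, z0, x0)).1 with hs
  have hss : ∀ n, ∃ b' ∉ s n, s (n + 1) = insert b' (s n) := by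
    intro n
    have h1 := (hf _ (hG n)).2
    simp only [hs, Function.iterate_succ_apply']
    exact h1
  obtain ⟨x, hx⟩ := nested (fun n => {x | ∀ b ∈ s n, Act B x b})
    (fun n => ⟨(f^[n] ({b0}, z0, x0)).2.1, (hG n).2.2.2.2.1⟩)
    (fun n => by
      have h1 : {x | ∀ b ∈ s n, Act B x b} = ⋂ b ∈ s n, {x | Act B x b} := by
        ext x
        simp only [Set.mem_ofPred_eq, mem_iInter]
      rw [h1]
      exact isClosed_biInter fun b _ => act_closed b)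
    (fun n x hx y hy a b ha hb hab c hc => by
      have h1 : a = 1 - b := by linarith
      rw [h1]
      exact act_combo (hx c hc) (hy c hc) hb (by linarith))
    (fun n x hx b hb => by
      obtain ⟨b', -, h1⟩ := hss n
      exact hx b (h1 ▸ mem_insert_of_mem _ hb))
    (b0.2 + ‖b0.1‖)
    (fun n x hx => by
      have h1 : ‖x - b0.1‖ ≤ b0.2 := (mem_iff hB hb0B x).2 (act_ge hB (hx b0 (hG n).2.1))
      have h2 : x = (x - b0.1) + b0.1 := by abel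
      calc ‖x‖ = ‖(x - b0.1) + b0.1‖ := by rw [← h2]
        _ ≤ ‖x - b0.1‖ + ‖b0.1‖ := norm_add_le _ _
        _ ≤ _ := by linarith)
  have hcard : ∀ n, n < (s n).ncard := by
    intro n
    induction n with
    | zero =>
      have h1 : s 0 = {b0} := rfl
      rw [h1, ncard_singleton]
      exact one_pos
    | succ n ih =>
      obtain ⟨b', hb', h1⟩ := hss n
      rw [h1, ncard_insert_of_notMem hb' (hG n).1]
      omega
  have h1 := hcard ({b | Act B x b}).ncard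
  have h2 : (s ({b | Act B x b}).ncard).ncard ≤ ({b | Act B x b}).ncard :=
    ncard_le_ncard (fun b hb => hx _ b hb) (act_fin hB x)
  omega

end Pool.Agent.TH789.BC
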