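import Mathlib

set_option autoImplicit false

/-!
Coverings of a Hilbert space by balls: the affine function of a ball, active balls, local
boundedness, local finiteness, and the existence of tangency points in sections of faces.
-/

namespace Pool.Agent.TH789.BC

open Set Metric

variable {H : Type*} [NormedAddCommGroup H] [InnerProductSpace ℝ H]

/-- The affine function `‖x‖² + r² - ‖x - c‖²` of the ball with centre `c` and radius `r`. -/
noncomputable def lf (b : H × ℝ) (x : H) : ℝ := 2 * inner ℝ b.1 x - ‖b.1‖ ^ 2 + b.2 ^ 2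

theorem lf_sub (b : H × ℝ) (x : H) : lf b x - ‖x‖ ^ 2 = b.2 ^ 2 - ‖x - b.1‖ ^ 2 := by
  rw [norm_sub_sq_real, real_inner_comm]
  unfold lf
  ring

theorem lf_add (b : H × ℝ) (x h : H) : lf b (x + h) = lf b x + 2 * inner ℝ b.1 h := by
  unfold lf
  rw [inner_add_right]
  ring

theorem lf_combo (b : H × ℝ) (x y : H) (t : ℝ) :
    lf b ((1 - t) • x + t • y) = (1 - t) * lf b x + t * lf b y := by
  unfold lf
  rw [inner_add_right, inner_smul_right, inner_smul_right]
  ring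

theorem lf_cont (b : H × ℝ) : Continuous (lf b) := by
  unfold lf
  fun_prop

/-- A family of balls (pairs of a centre and a radius) which is a point-finite covering. -/
structure Cov (B : Set (H × ℝ)) : Prop where
  pos : ∀ b ∈ B, 0 < b.2
  cov : ∀ x : H, ∃ b ∈ B, ‖x - b.1‖ ≤ b.2
  fin : ∀ x : H, {b | b ∈ B ∧ ‖x - b.1‖ ≤ b.2}.Finite

/-- The ball `b` is active at `x`: its affine function is the largest one at `x`. -/
def Act (B : Set (H × ℝ)) (x : H) (b : H × ℝ) : Prop := b ∈ B ∧ ∀ b' ∈ B, lf b' x ≤ lf b x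

/-- The points which lie in the interior of no ball. -/
def Zs (B : Set (H × ℝ)) : Set H := {x | ∀ b ∈ B, lf b x ≤ ‖x‖ ^ 2}

variable {B : Set (H × ℝ)}

theorem mem_iff (hB : Cov B) {b : H × ℝ} (hb : b ∈ B) (x : H) :
    ‖x - b.1‖ ≤ b.2 ↔ ‖x‖ ^ 2 ≤ lf b x := by
  have h := lf_sub b x
  have h1 := hB.pos b hb
  have h2 := norm_nonneg (x - b.1)
  constructor
  · intro h3
    nlinarith
  · intro h3
    by_contra h4
    push Not at h4
    nlinarith

theorem exists_act (hB : Cov B) (x : H) : ∃ b, Act B x b ∧ ‖x‖ ^ 2 ≤ lf b x := by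
  obtain ⟨b0, hb0, h0⟩ := hB.cov x
  have hne : {b | b ∈ B ∧ ‖x - b.1‖ ≤ b.2}.Nonempty := ⟨b0, hb0, h0⟩
  obtain ⟨m, hm, hmax⟩ := Set.exists_max_image _ (fun b => lf b x) (hB.fin x) hne
  have h1 : ‖x‖ ^ 2 ≤ lf m x := (mem_iff hB hm.1 x).1 hm.2
  refine ⟨m, ⟨hm.1, fun b' hb' => ?_⟩, h1⟩
  by_cases h : ‖x - b'.1‖ ≤ b'.2
  · exact hmax b' ⟨hb', h⟩
  · have := (not_congr (mem_iff hB hb' x)).1 h
    push Not at this
    exact this.le.trans h1

theorem act_ge (hB : Cov B) {x : H} {b : H × ℝ} (h : Act B x b) : ‖x‖ ^ 2 ≤ lf b x := by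
  obtain ⟨b0, h0, h1⟩ := exists_act hB x
  exact h1.trans (h.2 b0 h0.1)

theorem act_fin (hB : Cov B) (x : H) : {b | Act B x b}.Finite :=
  (hB.fin x).subset fun b hb => ⟨hb.1, (mem_iff hB hb.1 x).2 (act_ge hB hb)⟩

theorem act_eq {x : H} {b b' : H × ℝ} (h : Act B x b) (h' : Act B x b') : lf b x = lf b' x :=
  le_antisymm (h'.2 b h.1) (h.2 b' h'.1)

theorem act_combo {x y : H} {b : H × ℝ} (hx : Act B x b) (hy : Act B y b) {t : ℝ} (h0 : 0 ≤ t)
    (h1 : t ≤ 1) : Act B ((1 - t) • x + t • y) b := by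
  refine ⟨hx.1, fun b' hb' => ?_⟩
  rw [lf_combo, lf_combo]
  have h2 := hx.2 b' hb'
  have h3 := hy.2 b' hb'
  have h4 : 0 ≤ 1 - t := by linarith
  nlinarith [mul_le_mul_of_nonneg_left h2 h4, mul_le_mul_of_nonneg_left h3 h0]

theorem act_closed (b : H × ℝ) : IsClosed {x | Act B x b} := by
  by_cases hb : b ∈ B
  · have : {x | Act B x b} = ⋂ b' ∈ B, {x | lf b' x ≤ lf b x} := by
      ext x
      simp only [mem_setOf_eq, mem_iInter]
      exact ⟨fun h => h.2, fun h => ⟨hb, h⟩⟩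
    rw [this]
    exact isClosed_biInter fun b' _ => isClosed_le (lf_cont b') (lf_cont b)
  · have : {x | Act B x b} = ∅ := by
      ext x
      simp only [mem_setOf_eq, mem_empty_iff_false, iff_false]
      exact fun h => hb h.1
    rw [this]
    exact isClosed_empty

theorem Zs_closed : IsClosed (Zs B) := by
  have : Zs B = ⋂ b ∈ B, {x | lf b x ≤ ‖x‖ ^ 2} := by
    ext x
    simp only [Zs, mem_setOf_eq, mem_iInter]
  rw [this]
  exact isClosed_biInter fun b _ => isClosed_le (lf_cont b) (by fun_prop)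

/-- Local boundedness. -/
theorem loc_bdd [CompleteSpace H] (hB : Cov B) (x : H) :
    ∃ δ M : ℝ, 0 < δ ∧ ∀ b ∈ B, ∀ y : H, ‖y - x‖ ≤ δ → lf b y ≤ M := by
  have hcl : ∀ n : ℕ, IsClosed {y : H | ∀ b ∈ B, lf b y ≤ (n : ℝ)} := by
    intro n
    have : {y : H | ∀ b ∈ B, lf b y ≤ (n : ℝ)} = ⋂ b ∈ B, {y | lf b y ≤ (n : ℝ)} := by
      ext y
      simp only [mem_setOf_eq, mem_iInter]
    rw [this]
    exact isClosed_biInter fun b _ => isClosed_le (lf_cont b) continuous_const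
  have hun : (⋃ n : ℕ, {y : H | ∀ b ∈ B, lf b y ≤ (n : ℝ)}) = univ := by
    rw [eq_univ_iff_forall]
    intro y
    obtain ⟨b0, h0, -⟩ := exists_act hB y
    obtain ⟨n, hn⟩ := exists_nat_ge (lf b0 y)
    exact mem_iUnion.2 ⟨n, fun b hb => (h0.2 b hb).trans hn⟩
  obtain ⟨n, y0, hy0⟩ := nonempty_interior_of_iUnion_of_closed hcl hun
  rw [mem_interior_iff_mem_nhds, Metric.mem_nhds_iff] at hy0
  obtain ⟨ε, hε, hball⟩ := hy0
  obtain ⟨b1, h1, -⟩ := exists_act hB ((2 : ℝ) • x - y0)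
  refine ⟨ε / 4, (lf b1 ((2 : ℝ) • x - y0) + n) / 2, by positivity, fun b hb y hy => ?_⟩
  have h2 : y0 + (2 : ℝ) • (y - x) ∈ ball y0 ε := by
    rw [mem_ball, dist_eq_norm, add_sub_cancel_left, norm_smul, Real.norm_of_nonneg (by norm_num)]
    linarith
  have h3 : lf b (y0 + (2 : ℝ) • (y - x)) ≤ n := hball h2 b hb
  have h4 := h1.2 b hb
  have h5 : y = (1 - (1 / 2 : ℝ)) • ((2 : ℝ) • x - y0) + (1 / 2 : ℝ) • (y0 + (2 : ℝ) • (y - x)) := by
    module
  rw [h5, lf_combo]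
  linarith

/-- An interpolation bound near `x`. -/
theorem near_bd {x : H} {δ M : ℝ} (hδ : 0 < δ) {b : H × ℝ}
    (h : ∀ y : H, ‖y - x‖ ≤ δ → lf b y ≤ M) {y : H} {η : ℝ} (hη : 0 ≤ η) (hηδ : η ≤ δ)
    (hy : ‖y - x‖ ≤ η) : lf b y ≤ (1 - η / δ) * lf b x + η / δ * M := by
  rcases hη.eq_or_lt with h0 | h0
  · have : y = x := by
      rw [← h0] at hy
      exact sub_eq_zero.1 (norm_le_zero_iff.1 hy)
    rw [this, ← h0]
    simp
  · have h1 : lf b (x + (δ / η) • (y - x)) ≤ M := by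
      apply h
      rw [add_sub_cancel_left, norm_smul, Real.norm_of_nonneg (by positivity)]
      calc δ / η * ‖y - x‖ ≤ δ / η * η := by gcongr
        _ = δ := by field_simp
    have h2 : y = (1 - η / δ) • x + (η / δ) • (x + (δ / η) • (y - x)) := by
      rw [smul_add, smul_smul]
      have : η / δ * (δ / η) = 1 := by field_simp
      rw [this]
      module
    calc lf b y = (1 - η / δ) * lf b x + η / δ * lf b (x + (δ / η) • (y - x)) := by
          conv_lhs => rw [h2]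
          rw [lf_combo]
      _ ≤ _ := by gcongr

/-- Bound for the centre. -/
theorem centre_bd {x : H} {δ M : ℝ} (hδ : 0 < δ) {b : H × ℝ}
    (h : ∀ y : H, ‖y - x‖ ≤ δ → lf b y ≤ M) : 2 * δ * ‖b.1‖ ≤ M - lf b x := by
  by_cases h0 : b.1 = 0
  · have := h x (by simpa using hδ.le)
    rw [h0]
    simp
    exact this
  · have h1 : 0 < ‖b.1‖ := norm_pos_iff.2 h0
    have h2 := h (x + (δ / ‖b.1‖) • b.1) (by
      rw [add_sub_cancel_left, norm_smul, Real.norm_of_nonneg (by positivity)]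
      exact le_of_eq (by field_simp))
    rw [lf_add, inner_smul_right, real_inner_self_eq_norm_sq] at h2
    have h3 : δ / ‖b.1‖ * ‖b.1‖ ^ 2 = δ * ‖b.1‖ := by
      field_simp
    rw [h3] at h2
    linarith

/-- Upper semicontinuity of the maximum. -/
theorem usc [CompleteSpace H] (hB : Cov B) (x : H) {L : ℝ} (hL : ∀ b ∈ B, lf b x ≤ L) {ε : ℝ}
    (hε : 0 < ε) : ∃ η : ℝ, 0 < η ∧ ∀ y : H, ‖y - x‖ ≤ η → ∀ b ∈ B, lf b y ≤ L + ε := by
  obtain ⟨δ, M, hδ, hM⟩ := loc_bdd hB x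
  have hK : 0 < |M - L| + 1 := by positivity
  refine ⟨min δ (δ * (ε / (|M - L| + 1))), by positivity, fun y hy b hb => ?_⟩
  set η := min δ (δ * (ε / (|M - L| + 1))) with hη
  have hη0 : 0 ≤ η := by positivity
  have hη1 : η ≤ δ := min_le_left _ _
  have h1 := near_bd hδ (hM b hb) hη0 hη1 hy
  set θ := η / δ with hθ
  have hθ0 : 0 ≤ θ := by positivity
  have hθ1 : θ ≤ 1 := (div_le_one hδ).2 hη1
  have hθ2 : θ * (|M - L| + 1) ≤ ε := by
    have h2 : η ≤ δ * (ε / (|M - L| + 1)) := min_le_right _ _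
    rw [hθ, div_mul_eq_mul_div, div_le_iff₀ hδ]
    calc η * (|M - L| + 1) ≤ δ * (ε / (|M - L| + 1)) * (|M - L| + 1) := by gcongr
      _ = ε * δ := by field_simp
  have h3 := hL b hb
  have h4 : (1 - θ) * lf b x ≤ (1 - θ) * L := mul_le_mul_of_nonneg_left h3 (by linarith)
  have h5 : θ * (M - L) ≤ θ * |M - L| := mul_le_mul_of_nonneg_left (le_abs_self _) hθ0
  nlinarith

/-- Local finiteness off the tangency set. -/
theorem loc_fin [CompleteSpace H] (hB : Cov B) {x : H} {b0 : H × ℝ} (h0 : Act B x b0)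
    (hx : ‖x‖ ^ 2 < lf b0 x) :
    ∃ ε : ℝ, 0 < ε ∧ ∀ y : H, ‖y - x‖ ≤ ε → ∀ b' ∈ B, ∃ b, Act B x b ∧ lf b' y ≤ lf b y := by
  -- the gap
  have hgap : ∃ L, L < lf b0 x ∧ ∀ b' ∈ B, ¬ Act B x b' → lf b' x ≤ L := by
    have hT : ({b | b ∈ B ∧ ‖x - b.1‖ ≤ b.2} \ {b | Act B x b}).Finite := (hB.fin x).diff
    by_cases hne : ({b | b ∈ B ∧ ‖x - b.1‖ ≤ b.2} \ {b | Act B x b}).Nonempty
    · obtain ⟨m, hm, hmax⟩ := Set.exists_max_image _ (fun b => lf b x) hT hne
      refine ⟨max (lf m x) (‖x‖ ^ 2), max_lt ?_ hx, fun b' hb' hn => ?_⟩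
      · have h1 : lf m x ≤ lf b0 x := h0.2 m hm.1.1
        rcases h1.lt_or_eq with h2 | h2
        · exact h2
        · exfalso
          apply hm.2
          exact ⟨hm.1.1, fun b' hb' => h2 ▸ h0.2 b' hb'⟩
      · by_cases h3 : ‖x - b'.1‖ ≤ b'.2
        · exact le_max_of_le_left (hmax b' ⟨⟨hb', h3⟩, hn⟩)
        · have := (not_congr (mem_iff hB hb' x)).1 h3
          push Not at this
          exact le_max_of_le_right this.le
    · refine ⟨‖x‖ ^ 2, hx, fun b' hb' hn => ?_⟩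
      by_contra h3
      push Not at h3
      exact hne ⟨b', ⟨hb', (mem_iff hB hb' x).2 h3.le⟩, hn⟩
  obtain ⟨L, hL, hgap⟩ := hgap
  obtain ⟨δ, M, hδ, hM⟩ := loc_bdd hB x
  set F := lf b0 x with hF
  set g := F - L with hg
  have hg0 : 0 < g := by linarith
  set K := |M - L| / δ + 2 * ‖b0.1‖ + 1 with hK
  have hK0 : 0 < K := by positivity
  refine ⟨min δ (g / K), by positivity, fun y hy b' hb' => ?_⟩
  set η := min δ (g / K) with hη
  have hη0 : 0 ≤ η := by positivity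
  by_cases hact : Act B x b'
  · exact ⟨b', hact, le_rfl⟩
  · refine ⟨b0, h0, ?_⟩
    have h1 := near_bd hδ (hM b' hb') hη0 (min_le_left _ _) hy
    have h2 := hgap b' hb' hact
    have h3 : η * K ≤ g := by
      have : η ≤ g / K := min_le_right _ _
      calc η * K ≤ g / K * K := by gcongr
        _ = g := by field_simp
    have h4 : lf b0 y = F + 2 * inner ℝ b0.1 (y - x) := by
      rw [← lf_add]
      congr 1
      abel
    have h5 : -(‖b0.1‖ * η) ≤ inner ℝ b0.1 (y - x) := by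
      have h6 := abs_real_inner_le_norm b0.1 (y - x)
      have h7 := neg_abs_le (inner ℝ b0.1 (y - x))
      have h8 : ‖b0.1‖ * ‖y - x‖ ≤ ‖b0.1‖ * η := by gcongr
      linarith
    set θ := η / δ with hθ
    have hθ0 : 0 ≤ θ := by positivity
    have hθ1 : θ ≤ 1 := (div_le_one hδ).2 (min_le_left _ _)
    have h9 : (1 - θ) * lf b' x ≤ (1 - θ) * L := mul_le_mul_of_nonneg_left h2 (by linarith)
    have h10 : θ * (M - L) ≤ η * (|M - L| / δ) := by
      have : η * (|M - L| / δ) = θ * |M - L| := by rw [hθ]; ring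
      rw [this]
      exact mul_le_mul_of_nonneg_left (le_abs_self _) hθ0
    have h11 : η * K = η * (|M - L| / δ) + 2 * (‖b0.1‖ * η) + η := by rw [hK]; ring
    have h12 : lf b' y ≤ L + θ * (M - L) := by nlinarith
    rw [h4]
    linarith

end Pool.Agent.TH789.BC
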