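import Pool.Agent.TH789.BC.Basic

set_option autoImplicit false

/-!
Every point of a face can be moved, inside the face and orthogonally to finitely many given
vectors, to a point lying in the interior of no ball (infinite dimension is used here).
Decreasing sequences of nonempty bounded closed convex sets of a Hilbert space.
-/

namespace Pool.Agent.TH789.BC

open Set Metric Filter Topology

variable {H : Type*} [NormedAddCommGroup H] [InnerProductSpace ℝ H]

theorem exists_orth (hinf : ¬ FiniteDimensional ℝ H) {S : Set H} (hS : S.Finite) {ε : ℝ}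
    (hε : 0 < ε) : ∃ h : H, ‖h‖ = ε ∧ ∀ s ∈ S, inner ℝ s h = 0 := by
  haveI hfd : FiniteDimensional ℝ (Submodule.span ℝ S) := FiniteDimensional.span_of_finite ℝ hS
  have hne : (Submodule.span ℝ S)ᗮ ≠ ⊥ := by
    intro h
    rw [Submodule.orthogonal_eq_bot_iff] at h
    apply hinf
    rw [h] at hfd
    exact Module.finite_def.2 (Module.Finite.iff_fg.1 hfd)
  obtain ⟨v, hv, hv0⟩ := Submodule.exists_mem_ne_zero_of_ne_bot hne
  have hv1 : ‖v‖ ≠ 0 := norm_ne_zero_iff.2 hv0
  refine ⟨(ε / ‖v‖) • v, ?_, fun s hs => ?_⟩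
  · rw [norm_smul, Real.norm_of_nonneg (by positivity)]
    field_simp
  · rw [inner_smul_right, (Submodule.mem_orthogonal _ _).1 hv s (Submodule.subset_span hs),
      mul_zero]

variable {B : Set (H × ℝ)}

theorem ext_pt [CompleteSpace H] (hinf : ¬ FiniteDimensional ℝ H) (hB : Cov B)
    {s : Set (H × ℝ)} (hne : s.Nonempty) {W : Set H} (hW : W.Finite) {x : H}
    (hx : ∀ b ∈ s, Act B x b) :
    ∃ z ∈ Zs B, (∀ b ∈ s, Act B z b) ∧ ∀ w ∈ W, inner ℝ w (z - x) = 0 := by
  obtain ⟨b0, hb0⟩ := hne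
  have hb0B : b0 ∈ B := (hx b0 hb0).1
  set K : Set H := {y | (∀ b ∈ s, Act B y b) ∧ ∀ w ∈ W, inner ℝ w (y - x) = 0} with hK
  have hxK : x ∈ K := ⟨hx, fun w _ => by simp⟩
  have hKcl : IsClosed K := by
    have h1 : K = (⋂ b ∈ s, {y | Act B y b}) ∩ ⋂ w ∈ W, {y | inner ℝ w (y - x) = 0} := by
      ext y
      simp only [hK, mem_setOf_eq, mem_inter_iff, mem_iInter]
    rw [h1]
    refine (isClosed_biInter fun b _ => act_closed b).inter (isClosed_biInter fun w _ => ?_)
    exact isClosed_eq (by fun_prop) continuous_const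
  have hKb : ∀ y ∈ K, ‖y - b0.1‖ ≤ b0.2 := fun y hy =>
    (mem_iff hB hb0B y).2 (act_ge hB (hy.1 b0 hb0))
  have hKd : ∀ y ∈ K, ∀ y' ∈ K, ‖y - y'‖ ≤ 2 * b0.2 := by
    intro y hy y' hy'
    have h1 := hKb y hy
    have h2 := hKb y' hy'
    have h3 : y - y' = (y - b0.1) - (y' - b0.1) := by abel
    calc ‖y - y'‖ = ‖(y - b0.1) - (y' - b0.1)‖ := by rw [← h3]
      _ ≤ ‖y - b0.1‖ + ‖y' - b0.1‖ := norm_sub_le _ _
      _ ≤ 2 * b0.2 := by linarith
  -- the greedy choice
  have hstep : ∀ p : H × Set H, ∃ h : H, p.1 ∈ K → (∀ t ∈ p.2, inner ℝ t h = 0) ∧ p.1 + h ∈ K ∧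
      ∀ h' : H, (∀ t ∈ p.2, inner ℝ t h' = 0) → p.1 + h' ∈ K → ‖h'‖ ≤ 2 * ‖h‖ := by
    intro p
    by_cases hp : p.1 ∈ K
    · set A : Set ℝ := (fun h => ‖h‖) '' {h : H | (∀ t ∈ p.2, inner ℝ t h = 0) ∧ p.1 + h ∈ K}
        with hA
      have hA0 : (0 : ℝ) ∈ A := ⟨0, ⟨by simp, by simpa using hp⟩, by simp⟩
      have hAb : BddAbove A := by
        refine ⟨2 * b0.2, ?_⟩
        rintro _ ⟨h, ⟨-, hh⟩, rfl⟩
        have h1 := hKd _ hh _ hp
        rwa [add_sub_cancel_left] at h1
      by_cases hs0 : sSup A = 0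
      · refine ⟨0, fun _ => ⟨by simp, by simpa using hp, fun h' h1 h2 => ?_⟩⟩
        have h3 : ‖h'‖ ≤ sSup A := le_csSup hAb ⟨h', ⟨h1, h2⟩, rfl⟩
        rw [hs0] at h3
        simpa using h3
      · have hpos : 0 < sSup A := lt_of_le_of_ne (le_csSup hAb hA0) (Ne.symm hs0)
        obtain ⟨_, ⟨h, ⟨h1, h2⟩, rfl⟩, h3⟩ := exists_lt_of_lt_csSup ⟨0, hA0⟩ (half_lt_self hpos)
        refine ⟨h, fun _ => ⟨h1, h2, fun h' h4 h5 => ?_⟩⟩
        have h6 : ‖h'‖ ≤ sSup A := le_csSup hAb ⟨h', ⟨h4, h5⟩, rfl⟩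
        dsimp only at h3
        linarith
    · exact ⟨0, fun h => absurd h hp⟩
  choose step hs using hstep
  let q : ℕ → H × Set H := fun n => Nat.rec (x, insert 0 W)
    (fun _ p => (p.1 + step p, insert (p.1 + step p - x) p.2)) n
  have qs : ∀ n, q (n + 1) = ((q n).1 + step (q n), insert ((q n).1 + step (q n) - x) (q n).2) :=
    fun n => rfl
  have hqK : ∀ n, (q n).1 ∈ K := by
    intro n
    induction n with
    | zero => exact hxK
    | succ n ih => rw [qs]; exact (hs (q n) ih).2.1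
  have hfin : ∀ n, (q n).2.Finite := by
    intro n
    induction n with
    | zero => exact hW.insert 0
    | succ n ih => rw [qs]; exact ih.insert _
  have hWq : ∀ n, W ⊆ (q n).2 := by
    intro n
    induction n with
    | zero => exact subset_insert _ _
    | succ n ih => rw [qs]; exact ih.trans (subset_insert _ _)
  have hmem : ∀ n m, m ≤ n → (q m).1 - x ∈ (q n).2 := by
    intro n
    induction n with
    | zero =>
      intro m hm
      have : m = 0 := by omega
      subst this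
      have h1 : (q 0).1 - x = 0 := sub_self x
      rw [h1]
      exact mem_insert _ _
    | succ n ih =>
      intro m hm
      rcases Nat.lt_or_ge m (n + 1) with h | h
      · rw [qs n]
        exact mem_insert_of_mem _ (ih m (by omega))
      · have : m = n + 1 := by omega
        subst this
        rw [qs n]
        exact mem_insert _ _
  set y : ℕ → H := fun n => (q n).1 with hy
  have ys : ∀ n, y (n + 1) = y n + step (q n) := fun n => rfl
  have horth : ∀ n m, m ≤ n → inner ℝ (y m - x) (step (q n)) = 0 := fun n m hm =>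
    (hs (q n) (hqK n)).1 _ (hmem n m hm)
  have hpyth : ∀ n m, m ≤ n → ‖y (n + 1) - y m‖ ^ 2 = ‖y n - y m‖ ^ 2 + ‖step (q n)‖ ^ 2 := by
    intro n m hm
    have h1 : y (n + 1) - y m = (y n - y m) + step (q n) := by rw [ys]; abel
    have h2 : inner ℝ (y n - y m) (step (q n)) = 0 := by
      have h3 : y n - y m = (y n - x) - (y m - x) := by abel
      rw [h3, inner_sub_left, horth n n le_rfl, horth n m hm, sub_zero]
    rw [h1, norm_add_sq_real, h2]
    ring
  set S : ℕ → ℝ := fun n => ‖y n - x‖ ^ 2 with hS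
  have hy0 : y 0 = x := rfl
  have hSs : ∀ n, S (n + 1) = S n + ‖step (q n)‖ ^ 2 := by
    intro n
    have := hpyth n 0 (Nat.zero_le _)
    rw [hy0] at this
    exact this
  have hdiff : ∀ m n, m ≤ n → ‖y n - y m‖ ^ 2 = S n - S m := by
    intro m n hmn
    induction n, hmn using Nat.le_induction with
    | base => simp
    | succ n hmn ih => rw [hpyth n m hmn, ih, hSs]; ring
  have hmono : Monotone S := monotone_nat_of_le_succ fun n => by
    rw [hSs]
    nlinarith [sq_nonneg ‖step (q n)‖]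
  have hSb : BddAbove (range S) := by
    refine ⟨(2 * b0.2) ^ 2, ?_⟩
    rintro _ ⟨n, rfl⟩
    have h1 := hKd _ (hqK n) _ hxK
    have h2 : 0 ≤ ‖(q n).1 - x‖ := norm_nonneg _
    exact pow_le_pow_left₀ h2 h1 2
  have hlim : Tendsto S atTop (𝓝 (⨆ i, S i)) := tendsto_atTop_ciSup hmono hSb
  have hcau : CauchySeq y := by
    refine cauchySeq_of_le_tendsto_0 (fun N => Real.sqrt ((⨆ i, S i) - S N)) ?_ ?_
    · have key : ∀ m n N, N ≤ m → m ≤ n → dist (y n) (y m) ≤ Real.sqrt ((⨆ i, S i) - S N) := by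
        intro m n N hN hmn
        rw [dist_eq_norm]
        apply Real.le_sqrt_of_sq_le
        rw [hdiff m n hmn]
        have h1 : S n ≤ ⨆ i, S i := le_ciSup hSb n
        have h2 : S N ≤ S m := hmono hN
        linarith
      intro n m N hn hm
      rcases le_total n m with h | h
      · rw [dist_comm]
        exact key n m N hn h
      · exact key m n N hm h
    · have h1 : Tendsto (fun N => (⨆ i, S i) - S N) atTop (𝓝 0) := by
        have := hlim.const_sub (⨆ i, S i)
        rwa [sub_self] at this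
      have h2 := (Real.continuous_sqrt.tendsto 0).comp h1
      rwa [Real.sqrt_zero] at h2
  obtain ⟨z, hz⟩ := cauchySeq_tendsto_of_complete hcau
  have hzK : z ∈ K := hKcl.mem_of_tendsto hz (Eventually.of_forall hqK)
  refine ⟨z, ?_, hzK.1, hzK.2⟩
  by_contra hzZ
  have hlt : ‖z‖ ^ 2 < lf b0 z := by
    simp only [Zs, mem_setOf_eq] at hzZ
    push Not at hzZ
    obtain ⟨b, hb, h1⟩ := hzZ
    exact h1.trans_le ((hzK.1 b0 hb0).2 b hb)
  obtain ⟨ε, hε, hloc⟩ := loc_fin hB (hzK.1 b0 hb0) hlt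
  have e1 : ∀ᶠ n in atTop, ‖y n - z‖ < ε / 2 := by
    have := (Metric.tendsto_atTop.1 hz) (ε / 2) (by positivity)
    obtain ⟨N, hN⟩ := this
    filter_upwards [eventually_ge_atTop N] with n hn
    rw [← dist_eq_norm]
    exact hN n hn
  have e2 : ∀ᶠ n in atTop, ‖step (q n)‖ < ε / 4 := by
    have h1 : Tendsto (fun n => y (n + 1) - y n) atTop (𝓝 0) := by
      have := (hz.comp (tendsto_add_atTop_nat 1)).sub hz
      rwa [sub_self] at this
    have h2 := (Metric.tendsto_atTop.1 h1) (ε / 4) (by positivity)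
    obtain ⟨N, hN⟩ := h2
    filter_upwards [eventually_ge_atTop N] with n hn
    have h3 := hN n hn
    rw [dist_zero_right, ys, add_sub_cancel_left] at h3
    exact h3
  obtain ⟨n, hn1, hn2⟩ := (e1.and e2).exists
  have hfinA : ((fun b : H × ℝ => b.1 - b0.1) '' {b | Act B z b}).Finite := (act_fin hB z).image _
  obtain ⟨h, hnorm, hort⟩ := exists_orth hinf ((hfin n).union hfinA) (half_pos hε)
  have hh1 : ∀ t ∈ (q n).2, inner ℝ t h = 0 := fun t ht => hort t (Or.inl ht)
  have hh2 : ∀ b, Act B z b → inner ℝ b.1 h = inner ℝ b0.1 h := by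
    intro b hb
    have h1 := hort (b.1 - b0.1) (Or.inr ⟨b, hb, rfl⟩)
    rw [inner_sub_left] at h1
    linarith
  have hh3 : y n + h ∈ K := by
    refine ⟨fun b hb => ?_, fun w hw => ?_⟩
    · have hbz : Act B z b := hzK.1 b hb
      refine ⟨hbz.1, fun b' hb' => ?_⟩
      have h1 : ‖y n + h - z‖ ≤ ε := by
        have h2 : y n + h - z = (y n - z) + h := by abel
        rw [h2]
        calc ‖(y n - z) + h‖ ≤ ‖y n - z‖ + ‖h‖ := norm_add_le _ _
          _ ≤ ε := by rw [hnorm]; linarith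
      obtain ⟨b'', hb'', h3⟩ := hloc _ h1 b' hb'
      refine h3.trans ?_
      rw [lf_add, lf_add, hh2 b hbz, hh2 b'' hb'']
      have h4 := ((hqK n).1 b hb).2 b'' hb''.1
      have h5 : lf b'' (y n) ≤ lf b (y n) := h4
      linarith
    · have h1 : y n + h - x = (y n - x) + h := by abel
      rw [h1, inner_add_right, (hqK n).2 w hw, hh1 w (hWq n hw), add_zero]
  have hh4 := (hs (q n) (hqK n)).2.2 h hh1 hh3
  rw [hnorm] at hh4
  linarith

/-- Decreasing nonempty bounded closed convex sets of a Hilbert space have a common point. -/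
theorem nested [CompleteSpace H] (K : ℕ → Set H) (hne : ∀ n, (K n).Nonempty)
    (hcl : ∀ n, IsClosed (K n)) (hcv : ∀ n, Convex ℝ (K n)) (hdec : ∀ n, K (n + 1) ⊆ K n)
    (R : ℝ) (hR : ∀ n, ∀ x ∈ K n, ‖x‖ ≤ R) : ∃ x, ∀ n, x ∈ K n := by
  have hanti : Antitone K := antitone_nat_of_succ_le hdec
  have hmin : ∀ n, ∃ v ∈ K n, ∀ w ∈ K n, ‖v‖ ≤ ‖w‖ := by
    intro n
    obtain ⟨v, hv, hv1⟩ := exists_norm_eq_iInf_of_complete_convex (hne n) (hcl n).isComplete
      (hcv n) 0
    refine ⟨v, hv, fun w hw => ?_⟩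
    have h1 : ‖(0 : H) - v‖ ≤ ‖(0 : H) - w‖ := by
      rw [hv1]
      exact ciInf_le ⟨0, by rintro _ ⟨w, rfl⟩; exact norm_nonneg _⟩ (⟨w, hw⟩ : K n)
    simpa using h1
  choose v hv hvm using hmin
  set S : ℕ → ℝ := fun n => ‖v n‖ ^ 2 with hS
  have hmono : Monotone S := by
    refine monotone_nat_of_le_succ fun n => ?_
    exact pow_le_pow_left₀ (norm_nonneg _) (hvm n _ (hdec n (hv (n + 1)))) 2
  have hSb : BddAbove (range S) := by
    refine ⟨R ^ 2, ?_⟩
    rintro _ ⟨n, rfl⟩
    exact pow_le_pow_left₀ (norm_nonneg _) (hR n _ (hv n)) 2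
  have hlim : Tendsto S atTop (𝓝 (⨆ i, S i)) := tendsto_atTop_ciSup hmono hSb
  have hdiff : ∀ m n, m ≤ n → ‖v n - v m‖ ^ 2 ≤ 2 * (S n - S m) := by
    intro m n hmn
    have h1 : (1 / 2 : ℝ) • v n + (1 / 2 : ℝ) • v m ∈ K m :=
      (hcv m) (hanti hmn (hv n)) (hv m) (by norm_num) (by norm_num) (by norm_num)
    have h2 := hvm m _ h1
    have h3 : (1 / 2 : ℝ) • v n + (1 / 2 : ℝ) • v m = (1 / 2 : ℝ) • (v n + v m) := by
      rw [smul_add]
    rw [h3, norm_smul] at h2
    have h4 := parallelogram_law_with_norm ℝ (v n) (v m)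
    have h5 : ‖v m‖ ^ 2 ≤ (‖(1 / 2 : ℝ)‖ * ‖v n + v m‖) ^ 2 :=
      pow_le_pow_left₀ (norm_nonneg _) h2 2
    have h6 : ‖(1 / 2 : ℝ)‖ = 1 / 2 := by norm_num
    rw [h6] at h5
    simp only [hS]
    nlinarith
  have hcau : CauchySeq v := by
    refine cauchySeq_of_le_tendsto_0 (fun N => Real.sqrt (2 * ((⨆ i, S i) - S N))) ?_ ?_
    · have key : ∀ m n N, N ≤ m → m ≤ n →
          dist (v n) (v m) ≤ Real.sqrt (2 * ((⨆ i, S i) - S N)) := by
        intro m n N hN hmn
        rw [dist_eq_norm]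
        apply Real.le_sqrt_of_sq_le
        have h0 := hdiff m n hmn
        have h1 : S n ≤ ⨆ i, S i := le_ciSup hSb n
        have h2 : S N ≤ S m := hmono hN
        linarith
      intro n m N hn hm
      rcases le_total n m with h | h
      · rw [dist_comm]
        exact key n m N hn h
      · exact key m n N hm h
    · have h1 : Tendsto (fun N => 2 * ((⨆ i, S i) - S N)) atTop (𝓝 0) := by
        have := (hlim.const_sub (⨆ i, S i)).const_mul 2
        rwa [sub_self, mul_zero] at this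
      have h2 := (Real.continuous_sqrt.tendsto 0).comp h1
      rwa [Real.sqrt_zero] at h2
  obtain ⟨z, hz⟩ := cauchySeq_tendsto_of_complete hcau
  refine ⟨z, fun n => (hcl n).mem_of_tendsto hz ?_⟩
  filter_upwards [eventually_ge_atTop n] with m hm
  exact hanti hm (hv m)

end Pool.Agent.TH789.BC
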