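import Pool.Agent.TH789.BC.Ext

set_option autoImplicit false

/-!
Coverings of a Hilbert space by balls: finiteness in given directions, points outside finitely
many given balls, the Baire argument for the radii, and the first step of the construction.
-/

namespace Pool.Agent.TH789.BC

open Set Metric Filter Topology

variable {H : Type*} [NormedAddCommGroup H] [InnerProductSpace ℝ H]

variable {B : Set (H × ℝ)}

/-- Only finitely many balls nearly contain `z` and have their centre on one side of `z`. -/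
theorem fin_dir (hB : Cov B) (z : H) {w : H} (hw : ‖w‖ = 1) {ε : ℝ} (hε : 0 < ε) :
    {b | b ∈ B ∧ ‖z‖ ^ 2 - lf b z ≤ ε ^ 2 ∧ ε ≤ inner ℝ (b.1 - z) w}.Finite := by
  refine (hB.fin (z + ε • w)).subset ?_
  rintro b ⟨hb, h1, h2⟩
  refine ⟨hb, ?_⟩
  rw [mem_iff hB hb, lf_add, norm_add_sq_real, inner_smul_right, inner_smul_right, norm_smul, hw,
    Real.norm_of_nonneg hε.le]
  rw [inner_sub_left] at h2
  nlinarith

theorem fin_proj (hB : Cov B) (z : H) (V : Submodule ℝ H) [FiniteDimensional ℝ V] {ε : ℝ}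
    (hε : 0 < ε) :
    ∃ η : ℝ, 0 < η ∧
      {b | b ∈ B ∧ ‖z‖ ^ 2 - lf b z ≤ η ∧ ε < ‖V.starProjection (b.1 - z)‖}.Finite := by
  have e := stdOrthonormalBasis ℝ V
  set d := Module.finrank ℝ V with hd
  set ε' : ℝ := ε / (d + 1) with hε'
  have hε'0 : 0 < ε' := by positivity
  refine ⟨ε' ^ 2, by positivity, ?_⟩
  have hn : ∀ i, ‖(e i : H)‖ = 1 := fun i => by
    have := e.orthonormal.1 i
    rwa [Submodule.norm_coe]
  have hfin : (⋃ i : Fin d,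
      ({b | b ∈ B ∧ ‖z‖ ^ 2 - lf b z ≤ ε' ^ 2 ∧ ε' ≤ inner ℝ (b.1 - z) (e i : H)} ∪
        {b | b ∈ B ∧ ‖z‖ ^ 2 - lf b z ≤ ε' ^ 2 ∧ ε' ≤ inner ℝ (b.1 - z) (-(e i : H))})).Finite :=
    Set.finite_iUnion fun i => (fin_dir hB z (hn i) hε'0).union
      (fin_dir hB z (by rw [norm_neg]; exact hn i) hε'0)
  refine hfin.subset ?_
  rintro b ⟨hb, h1, h2⟩
  by_contra hcon
  have h3 : ∀ i, |inner ℝ (e i : H) (b.1 - z)| ≤ ε' := by
    intro i
    by_contra h4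
    push Not at h4
    apply hcon
    rw [mem_iUnion]
    refine ⟨i, ?_⟩
    rcases le_total 0 (inner ℝ (e i : H) (b.1 - z)) with h5 | h5
    · left
      rw [abs_of_nonneg h5, real_inner_comm] at h4
      exact ⟨hb, h1, h4.le⟩
    · right
      rw [abs_of_nonpos h5, real_inner_comm] at h4
      refine ⟨hb, h1, ?_⟩
      rw [inner_neg_right]
      exact h4.le
  have h4 : ‖V.starProjection (b.1 - z)‖ ≤ d * ε' := by
    rw [Submodule.starProjection_apply, OrthonormalBasis.orthogonalProjectionOnto_apply_eq_sum e]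
    rw [Submodule.norm_coe]
    refine (norm_sum_le _ _).trans ?_
    calc ∑ i : Fin d, ‖inner ℝ (e i : H) (b.1 - z) • e i‖ ≤ ∑ _i : Fin d, ε' := by
          refine Finset.sum_le_sum fun i _ => ?_
          rw [norm_smul, e.orthonormal.1 i, mul_one, Real.norm_eq_abs]
          exact h3 i
      _ = d * ε' := by simp
  have h5 : (d : ℝ) * ε' < ε := by
    have h6 : ((d : ℝ) + 1) * ε' = ε := by
      rw [hε']
      field_simp
    linarith
  linarith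

/-- Every point of `Zs B` is a limit of points of `Zs B` outside a given ball. -/
theorem nb [CompleteSpace H] (hinf : ¬ FiniteDimensional ℝ H) (hB : Cov B) {z : H}
    (hz : z ∈ Zs B) {ε : ℝ} (hε : 0 < ε) {b1 : H × ℝ} (hb1 : b1 ∈ B) :
    ∃ z' ∈ Zs B, ‖z' - z‖ < ε ∧ b1.2 < ‖z' - b1.1‖ := by
  by_cases hin : ‖z - b1.1‖ ≤ b1.2
  swap
  · push Not at hin
    exact ⟨z, hz, by simpa using hε, hin⟩
  have hr1 := hB.pos b1 hb1
  have hnz : b1.2 ≤ ‖z - b1.1‖ := by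
    have h1 := lf_sub b1 z
    have h2 := hz b1 hb1
    have h3 := norm_nonneg (z - b1.1)
    by_contra h4
    push Not at h4
    nlinarith
  obtain ⟨η, hη, husc⟩ := usc hB z (L := ‖z‖ ^ 2) hz (ε := ε ^ 2 / 16) (by positivity)
  have t1 : Tendsto (fun τ : ℝ => z - τ • (b1.1 - z)) (𝓝[>] 0) (𝓝 z) := by
    have h0 : Continuous (fun τ : ℝ => z - τ • (b1.1 - z)) := by fun_prop
    have h := h0.tendsto 0
    simp only [zero_smul, sub_zero] at h
    exact h.mono_left nhdsWithin_le_nhds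
  have e1 : ∀ᶠ τ : ℝ in 𝓝[>] 0, z - τ • (b1.1 - z) ∈ ball z (min η (ε / 2)) :=
    t1 (ball_mem_nhds _ (by positivity))
  have e2 : ∀ᶠ τ : ℝ in 𝓝[>] 0, ‖z‖ ^ 2 - ε ^ 2 / 16 < ‖z - τ • (b1.1 - z)‖ ^ 2 :=
    (t1.norm.pow 2).eventually (lt_mem_nhds (by nlinarith [sq_pos_of_pos hε]))
  have e3 : ∀ᶠ τ : ℝ in 𝓝[>] 0, 0 < τ := self_mem_nhdsWithin
  obtain ⟨τ, hτ1, hτ2, hτ3⟩ := (e1.and (e2.and e3)).exists
  set x := z - τ • (b1.1 - z) with hx
  rw [mem_ball, dist_eq_norm] at hτ1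
  obtain ⟨b, hb, -⟩ := exists_act hB x
  obtain ⟨z', hz'Z, hz'b, hz'W⟩ := ext_pt hinf hB (s := {b}) (singleton_nonempty b)
    (W := {b.1 - x, b.1 - b1.1}) (toFinite _) (x := x) (by
      intro b' hb'
      rw [mem_singleton_iff] at hb'
      rw [hb']
      exact hb)
  have h1 : inner ℝ (b.1 - x) (z' - x) = 0 := hz'W _ (by simp)
  have h2 : inner ℝ (b.1 - b1.1) (z' - x) = 0 := hz'W _ (by simp)
  have hz'act := hz'b b rfl
  have h3 : lf b z' = ‖z'‖ ^ 2 := le_antisymm (hz'Z b hb.1) (act_ge hB hz'act)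
  have h4 : z' = x + (z' - x) := by abel
  have h5 : ‖z' - x‖ ^ 2 = lf b x - ‖x‖ ^ 2 := by
    have h6 : lf b z' = lf b x + 2 * inner ℝ b.1 (z' - x) := by
      conv_lhs => rw [h4]
      rw [lf_add]
    have h7 : ‖z'‖ ^ 2 = ‖x‖ ^ 2 + 2 * inner ℝ x (z' - x) + ‖z' - x‖ ^ 2 := by
      conv_lhs => rw [h4]
      rw [norm_add_sq_real]
    rw [inner_sub_left] at h1
    linarith
  have h6 : lf b x ≤ ‖z‖ ^ 2 + ε ^ 2 / 16 :=
    husc x (hτ1.le.trans (min_le_left _ _)) b hb.1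
  have h7 : ‖z' - x‖ < ε / 2 := by
    have h8 : ‖z' - x‖ ^ 2 < (ε / 2) ^ 2 := by
      rw [h5]
      nlinarith [sq_pos_of_pos hε]
    exact lt_of_pow_lt_pow_left₀ 2 (by positivity) h8
  refine ⟨z', hz'Z, ?_, ?_⟩
  · have h8 : z' - z = (z' - x) + (x - z) := by abel
    rw [h8]
    calc ‖(z' - x) + (x - z)‖ ≤ ‖z' - x‖ + ‖x - z‖ := norm_add_le _ _
      _ < ε := by
        have := hτ1.trans_le (min_le_right _ _)
        linarith
  · have h8 : ‖z' - b1.1‖ ^ 2 = ‖z' - x‖ ^ 2 + ‖x - b1.1‖ ^ 2 := by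
      have h9 : z' - b1.1 = (z' - x) + (x - b1.1) := by abel
      have h10 : inner ℝ (z' - x) (x - b1.1) = 0 := by
        have h11 : x - b1.1 = (b.1 - b1.1) - (b.1 - x) := by abel
        rw [real_inner_comm, h11, inner_sub_left, h2, h1, sub_zero]
      rw [h9, norm_add_sq_real, h10]
      ring
    have h9 : x - b1.1 = (1 + τ) • (z - b1.1) := by
      rw [hx]
      module
    have h10 : ‖x - b1.1‖ = (1 + τ) * ‖z - b1.1‖ := by
      rw [h9, norm_smul, Real.norm_of_nonneg (by positivity)]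
    have h11 : b1.2 < ‖x - b1.1‖ := by
      rw [h10]
      nlinarith
    have h12 : b1.2 ^ 2 < ‖z' - b1.1‖ ^ 2 := by
      rw [h8]
      nlinarith [sq_nonneg ‖z' - x‖]
    exact lt_of_pow_lt_pow_left₀ 2 (norm_nonneg _) h12

theorem nb_fin [CompleteSpace H] (hinf : ¬ FiniteDimensional ℝ H) (hB : Cov B) {z : H}
    (hz : z ∈ Zs B) {T : Set (H × ℝ)} (hT : T.Finite) :
    T ⊆ B → ∀ ε : ℝ, 0 < ε → ∃ z' ∈ Zs B, ‖z' - z‖ < ε ∧ ∀ b ∈ T, b.2 < ‖z' - b.1‖ := by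
  induction T, hT using Set.Finite.induction_on with
  | empty =>
    intro _ ε hε
    exact ⟨z, hz, by simpa using hε, fun b hb => absurd hb (notMem_empty b)⟩
  | @insert a T _ hT ih =>
    intro hTB ε hε
    obtain ⟨z1, hz1, h1, h2⟩ := ih ((subset_insert _ _).trans hTB) (ε / 2) (by positivity)
    have h3 : ∀ᶠ y in 𝓝 z1, ∀ b ∈ T, b.2 < ‖y - b.1‖ := by
      rw [eventually_all_finite hT]
      intro b hb
      have h4 : Tendsto (fun y : H => ‖y - b.1‖) (𝓝 z1) (𝓝 ‖z1 - b.1‖) := by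
        have : Continuous fun y : H => ‖y - b.1‖ := by fun_prop
        exact this.tendsto z1
      exact h4.eventually (lt_mem_nhds (h2 b hb))
    obtain ⟨δ, hδ, hball⟩ := Metric.eventually_nhds_iff.1 h3
    obtain ⟨z2, hz2, h4, h5⟩ := nb hinf hB hz1 (ε := min (ε / 2) δ) (by positivity)
      (hTB (mem_insert a T))
    refine ⟨z2, hz2, ?_, ?_⟩
    · have h8 : z2 - z = (z2 - z1) + (z1 - z) := by abel
      rw [h8]
      calc ‖(z2 - z1) + (z1 - z)‖ ≤ ‖z2 - z1‖ + ‖z1 - z‖ := norm_add_le _ _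
        _ < ε := by
          have := h4.trans_le (min_le_left _ _)
          linarith
    · intro b hb
      rcases mem_insert_iff.1 hb with rfl | hb
      · exact h5
      · refine hball ?_ b hb
        rw [dist_eq_norm]
        exact h4.trans_le (min_le_right _ _)

theorem near_s [CompleteSpace H] (hB : Cov B) (z : H) {η : ℝ} (hη : 0 < η) :
    ∃ δ : ℝ, 0 < δ ∧ ∀ z' : H, ‖z' - z‖ < δ → ∀ b ∈ B, ‖z' - b.1‖ ≤ b.2 →
      ‖z‖ ^ 2 - lf b z ≤ η := by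
  obtain ⟨δ, M, hδ, hM⟩ := loc_bdd hB z
  set K := 2 * (‖z‖ + |M| / δ) + 1 with hK
  have hK0 : 0 < K := by positivity
  refine ⟨min (δ / 2) (η / K), by positivity, fun z' hz' b hb hin => ?_⟩
  have h1 : ‖z'‖ ^ 2 ≤ lf b z' := (mem_iff hB hb z').1 hin
  set u := z' - z with hu
  have hzu : z' = z + u := by rw [hu]; abel
  have h2 : lf b z' = lf b z + 2 * inner ℝ b.1 u := by rw [hzu, lf_add]
  have h3 : ‖z'‖ ^ 2 = ‖z‖ ^ 2 + 2 * inner ℝ z u + ‖u‖ ^ 2 := by rw [hzu, norm_add_sq_real]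
  have h4 : inner ℝ b.1 u ≤ ‖b.1‖ * ‖u‖ := real_inner_le_norm _ _
  have h5 : -(‖z‖ * ‖u‖) ≤ inner ℝ z u := by
    have := abs_real_inner_le_norm z u
    have h6 := neg_abs_le (inner ℝ z u)
    linarith
  have h6 := centre_bd hδ (hM b hb)
  have h7 : ‖u‖ ≤ δ / 2 := hz'.le.trans (min_le_left _ _)
  have h8 : ‖u‖ ≤ η / K := hz'.le.trans (min_le_right _ _)
  have h9 : ‖b.1‖ * ‖u‖ ≤ ‖b.1‖ * (δ / 2) := by gcongr
  have h10 : δ * ‖b.1‖ ≤ |M| := by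
    have := le_abs_self M
    nlinarith [sq_nonneg ‖z'‖]
  have h11 : ‖b.1‖ ≤ |M| / δ := by
    rw [le_div_iff₀ hδ]
    linarith
  have h12 : ‖z‖ ^ 2 - lf b z ≤ 2 * (‖z‖ + ‖b.1‖) * ‖u‖ := by
    nlinarith [sq_nonneg ‖u‖]
  have h13 : 2 * (‖z‖ + ‖b.1‖) * ‖u‖ ≤ K * (η / K) := by
    have h14 : 2 * (‖z‖ + ‖b.1‖) ≤ K := by rw [hK]; linarith
    gcongr
  have h14 : K * (η / K) = η := by field_simp
  linarith

/-- Baire category for the radii of the balls touching `Zs B`. -/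
theorem baire_Z [CompleteSpace H] (hinf : ¬ FiniteDimensional ℝ H) (hB : Cov B) :
    ∃ z0 ∈ Zs B, ∃ ε0 ρ : ℝ, 0 < ε0 ∧ 0 < ρ ∧ ∀ z ∈ Zs B, ‖z - z0‖ < ε0 → ∀ ε : ℝ, 0 < ε →
      ∃ z' ∈ Zs B, ‖z' - z‖ < ε ∧ ∃ b ∈ B, ρ ≤ b.2 ∧ ‖z' - b.1‖ ≤ b.2 := by
  have hne : Nonempty (Zs B) := by
    obtain ⟨b, hb, -⟩ := exists_act hB (0 : H)
    obtain ⟨z, hz, -⟩ := ext_pt hinf hB (s := {b}) (singleton_nonempty b) (W := ∅) finite_empty
      (x := (0 : H)) (by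
        intro b' hb'
        rw [mem_singleton_iff] at hb'
        rw [hb']
        exact hb)
    exact ⟨⟨z, hz⟩⟩
  have hc : CompleteSpace (Zs B) := Zs_closed.completeSpace_coe
  have hun : (⋃ n : ℕ, closure {z : Zs B | ∃ b ∈ B, 1 / ((n : ℝ) + 1) ≤ b.2 ∧
      ‖(z : H) - b.1‖ ≤ b.2}) = univ := by
    rw [eq_univ_iff_forall]
    intro z
    obtain ⟨b, hb, h1⟩ := hB.cov (z : H)
    obtain ⟨n, hn⟩ := exists_nat_one_div_lt (hB.pos b hb)
    exact mem_iUnion.2 ⟨n, subset_closure ⟨b, hb, hn.le, h1⟩⟩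
  obtain ⟨n, z0, hz0⟩ := nonempty_interior_of_iUnion_of_closed (fun n => isClosed_closure) hun
  rw [mem_interior_iff_mem_nhds, Metric.mem_nhds_iff] at hz0
  obtain ⟨ε0, hε0, hball⟩ := hz0
  refine ⟨z0, z0.2, ε0, 1 / ((n : ℝ) + 1), hε0, by positivity, fun z hz hzz ε hε => ?_⟩
  have h1 : (⟨z, hz⟩ : Zs B) ∈ ball z0 ε0 := by
    rw [mem_ball, Subtype.dist_eq, dist_eq_norm]
    exact hzz
  obtain ⟨z', hz', h2⟩ := Metric.mem_closure_iff.1 (hball h1) ε hε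
  refine ⟨z', z'.2, ?_, hz'⟩
  rw [dist_comm, Subtype.dist_eq, dist_eq_norm] at h2
  exact h2

theorem inf_big [CompleteSpace H] (hinf : ¬ FiniteDimensional ℝ H) (hB : Cov B) {z0 : H}
    {ε0 ρ : ℝ} (hd : ∀ z ∈ Zs B, ‖z - z0‖ < ε0 → ∀ ε : ℝ, 0 < ε →
      ∃ z' ∈ Zs B, ‖z' - z‖ < ε ∧ ∃ b ∈ B, ρ ≤ b.2 ∧ ‖z' - b.1‖ ≤ b.2) {z : H}
    (hz : z ∈ Zs B) (hz0 : ‖z - z0‖ < ε0) {η : ℝ} (hη : 0 < η) :
    {b | b ∈ B ∧ ρ ≤ b.2 ∧ ‖z‖ ^ 2 - lf b z ≤ η}.Infinite := by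
  intro hT
  obtain ⟨δ, hδ, hnear⟩ := near_s hB z hη
  obtain ⟨z1, hz1, h1, h2⟩ := nb_fin hinf hB hz hT (fun b hb => hb.1)
    (min (δ / 2) (ε0 - ‖z - z0‖)) (by
      have : 0 < ε0 - ‖z - z0‖ := by linarith
      positivity)
  have h3 : ∀ᶠ y in 𝓝 z1, ∀ b ∈ {b | b ∈ B ∧ ρ ≤ b.2 ∧ ‖z‖ ^ 2 - lf b z ≤ η},
      b.2 < ‖y - b.1‖ := by
    rw [eventually_all_finite hT]
    intro b hb
    have h4 : Tendsto (fun y : H => ‖y - b.1‖) (𝓝 z1) (𝓝 ‖z1 - b.1‖) := by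
      have : Continuous fun y : H => ‖y - b.1‖ := by fun_prop
      exact this.tendsto z1
    exact h4.eventually (lt_mem_nhds (h2 b hb))
  obtain ⟨δ', hδ', hball⟩ := Metric.eventually_nhds_iff.1 h3
  have h4 : ‖z1 - z0‖ < ε0 := by
    have h5 : z1 - z0 = (z1 - z) + (z - z0) := by abel
    rw [h5]
    have h6 := h1.trans_le (min_le_right _ _)
    linarith [norm_add_le (z1 - z) (z - z0)]
  obtain ⟨z2, hz2, h5, b, hb, hρ, hin⟩ := hd z1 hz1 h4 (min (δ / 2) δ') (by positivity)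
  have h6 : ‖z2 - z‖ < δ := by
    have h7 : z2 - z = (z2 - z1) + (z1 - z) := by abel
    rw [h7]
    have h8 := h1.trans_le (min_le_left _ _)
    have h9 := h5.trans_le (min_le_left _ _)
    linarith [norm_add_le (z2 - z1) (z1 - z)]
  have h7 := hnear z2 h6 b hb hin
  have h8 := hball (y := z2) (by
    rw [dist_eq_norm]
    exact h5.trans_le (min_le_right _ _)) b ⟨hb, hρ, h7⟩
  linarith

/-- The first ball of the construction. -/
theorem start_pt [CompleteSpace H] (hB : Cov B) {z0 : H} (hz0 : z0 ∈ Zs B) :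
    ∃ b0 x0, Act B z0 b0 ∧ Act B x0 b0 ∧ ‖x0‖ ^ 2 < lf b0 x0 := by
  obtain ⟨b', hb', hb'1⟩ := hB.cov z0
  obtain ⟨b0, hb0, hmax⟩ := Set.exists_max_image {b | b ∈ B ∧ ‖z0 - b.1‖ ≤ b.2}
    (fun b => b.2) (hB.fin z0) ⟨b', hb', hb'1⟩
  have hlf0 : lf b0 z0 = ‖z0‖ ^ 2 := le_antisymm (hz0 b0 hb0.1) ((mem_iff hB hb0.1 z0).1 hb0.2)
  have hact0 : Act B z0 b0 := ⟨hb0.1, fun b hb => (hz0 b hb).trans hlf0.ge⟩
  have hr0 := hB.pos b0 hb0.1
  have hrad : ∀ b ∈ B, lf b z0 = ‖z0‖ ^ 2 → ‖b.1 - z0‖ = b.2 := by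
    intro b hb h
    have h1 := lf_sub b z0
    rw [h, sub_self] at h1
    have h2 : ‖z0 - b.1‖ ^ 2 = b.2 ^ 2 := by linarith
    rw [norm_sub_rev]
    exact (pow_left_inj₀ (norm_nonneg _) (hB.pos b hb).le two_ne_zero).1 h2
  set v := b0.1 - z0 with hv
  have hvn : ‖v‖ = b0.2 := hrad b0 hb0.1 hlf0
  set w := b0.2⁻¹ • v with hw
  have hwn : ‖w‖ = 1 := by
    rw [hw, norm_smul, hvn, Real.norm_of_nonneg (by positivity)]
    field_simp
  have hE := fin_dir hB z0 hwn hr0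
  have hc : ∀ b : H × ℝ, Tendsto (fun τ : ℝ => lf b (z0 + τ • v)) (𝓝[>] 0) (𝓝 (lf b z0)) := by
    intro b
    have h0 : Continuous (fun τ : ℝ => lf b (z0 + τ • v)) := by
      have := lf_cont b
      fun_prop
    have h := h0.tendsto 0
    simp only [zero_smul, add_zero] at h
    exact h.mono_left nhdsWithin_le_nhds
  have e0 : ∀ᶠ τ : ℝ in 𝓝[>] 0, 0 < τ := self_mem_nhdsWithin
  have e1 : ∀ᶠ τ : ℝ in 𝓝[>] 0, τ < 1 := by
    have : ∀ᶠ τ : ℝ in 𝓝 0, τ < 1 := gt_mem_nhds one_pos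
    exact this.filter_mono nhdsWithin_le_nhds
  have e2 : ∀ᶠ τ : ℝ in 𝓝[>] 0,
      ∀ b ∈ {b | b ∈ B ∧ ‖z0‖ ^ 2 - lf b z0 ≤ b0.2 ^ 2 ∧ b0.2 ≤ inner ℝ (b.1 - z0) w},
      lf b (z0 + τ • v) ≤ lf b0 (z0 + τ • v) := by
    rw [eventually_all_finite hE]
    rintro b ⟨hb, -, -⟩
    rcases (hz0 b hb).lt_or_eq with h | h
    · rw [← hlf0] at h
      filter_upwards [(hc b).eventually_lt (hc b0) h] with τ hτ
      exact hτ.le
    · filter_upwards [e0] with τ hτ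
      have h1 := hrad b hb h
      have h2 : b.2 ≤ b0.2 := hmax b ⟨hb, (mem_iff hB hb z0).2 h.ge⟩
      rw [lf_add, lf_add, h, hlf0, inner_smul_right, inner_smul_right]
      have h3 : inner ℝ (b.1 - z0) v ≤ ‖b.1 - z0‖ * ‖v‖ := real_inner_le_norm _ _
      have h4 : inner ℝ (b0.1 - z0) v = ‖v‖ ^ 2 := by
        rw [← hv, real_inner_self_eq_norm_sq]
      rw [inner_sub_left] at h3 h4
      rw [h1, hvn] at h3
      rw [hvn] at h4
      have h5 : inner ℝ b.1 v ≤ inner ℝ b0.1 v := by nlinarith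
      nlinarith
  obtain ⟨δ, M, hδ, hM⟩ := loc_bdd hB z0
  have e3 : ∀ᶠ τ : ℝ in 𝓝[>] 0, (1 - τ * b0.2 / δ) * (‖z0‖ ^ 2 - b0.2 ^ 2) + τ * b0.2 / δ * M <
      lf b0 (z0 + τ • v) := by
    have h1 : Tendsto (fun τ : ℝ =>
        (1 - τ * b0.2 / δ) * (‖z0‖ ^ 2 - b0.2 ^ 2) + τ * b0.2 / δ * M) (𝓝[>] 0)
        (𝓝 (‖z0‖ ^ 2 - b0.2 ^ 2)) := by
      have h0 : Continuous (fun τ : ℝ =>
        (1 - τ * b0.2 / δ) * (‖z0‖ ^ 2 - b0.2 ^ 2) + τ * b0.2 / δ * M) := by fun_prop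
      have h := h0.tendsto 0
      simp only [zero_mul, zero_div, sub_zero, one_mul, add_zero] at h
      exact h.mono_left nhdsWithin_le_nhds
    refine h1.eventually_lt (hc b0) ?_
    rw [hlf0]
    nlinarith
  have e4 : ∀ᶠ τ : ℝ in 𝓝[>] 0, τ * b0.2 < δ := by
    have h0 : Continuous (fun τ : ℝ => τ * b0.2) := by fun_prop
    have h := h0.tendsto 0
    rw [zero_mul] at h
    have h1 : ∀ᶠ τ : ℝ in 𝓝 0, τ * b0.2 < δ := h.eventually (gt_mem_nhds hδ)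
    exact h1.filter_mono nhdsWithin_le_nhds
  obtain ⟨τ, h0, h1, h2, h3, h4⟩ := (e0.and (e1.and (e2.and (e3.and e4)))).exists
  refine ⟨b0, z0 + τ • v, hact0, ⟨hb0.1, fun b hb => ?_⟩, ?_⟩
  · by_cases hs : ‖z0‖ ^ 2 - lf b z0 ≤ b0.2 ^ 2
    · by_cases hi : b0.2 ≤ inner ℝ (b.1 - z0) w
      · exact h2 b ⟨hb, hs, hi⟩
      · push Not at hi
        rw [lf_add, lf_add, hlf0, inner_smul_right, inner_smul_right]
        have h5 := hz0 b hb
        have h6 : inner ℝ (b.1 - z0) w = b0.2⁻¹ * inner ℝ (b.1 - z0) v := by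
          rw [hw, inner_smul_right]
        rw [h6, inv_mul_lt_iff₀ hr0] at hi
        have h7 : inner ℝ (b0.1 - z0) v = ‖v‖ ^ 2 := by
          rw [← hv, real_inner_self_eq_norm_sq]
        rw [inner_sub_left] at hi h7
        rw [hvn] at h7
        have h8 : inner ℝ b.1 v ≤ inner ℝ b0.1 v := by nlinarith
        nlinarith
    · push Not at hs
      have h5 : ‖z0 + τ • v - z0‖ ≤ τ * b0.2 := by
        rw [add_sub_cancel_left, norm_smul, hvn, Real.norm_of_nonneg h0.le]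
      have h6 := near_bd hδ (hM b hb) (by positivity) h4.le h5
      have h7 : τ * b0.2 / δ ≤ 1 := (div_le_one hδ).2 h4.le
      have h8 : (1 - τ * b0.2 / δ) * lf b z0 ≤ (1 - τ * b0.2 / δ) * (‖z0‖ ^ 2 - b0.2 ^ 2) :=
        mul_le_mul_of_nonneg_left (by linarith) (by linarith)
      linarith
  · have h5 := lf_sub b0 (z0 + τ • v)
    have h6 : z0 + τ • v - b0.1 = -((1 - τ) • v) := by
      rw [hv]
      module
    have h7 : ‖z0 + τ • v - b0.1‖ = (1 - τ) * b0.2 := by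
      rw [h6, norm_neg, norm_smul, hvn, Real.norm_of_nonneg (by linarith)]
    rw [h7] at h5
    have h8 : ((1 - τ) * b0.2) ^ 2 < b0.2 ^ 2 := by
      apply pow_lt_pow_left₀ _ (by
        have : 0 ≤ 1 - τ := by linarith
        positivity) two_ne_zero
      nlinarith
    linarith

end Pool.Agent.TH789.BC
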